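import Pool.Agent.H15.G.R_seed8.TH793.UM.Defs

/-! The collision of a group of points: the limit of a system with a group of points colliding to
one point. -/

namespace Pool.Agent.TH793.UM

open MvPolynomial

section ring
variable {R : Type*} [CommRing R]

theorem sh_X (P : Fin 2 → R) (i : Fin 2) : sh P (X i) = X i + C (P i) := by
  unfold sh; exact aeval_X _ _

theorem sh_C (P : Fin 2 → R) (c : R) : sh P (C c) = C c := by
  unfold sh; exact (sh P).commutes c

theorem sh_sh (P Q : Fin 2 → R) (F : MvPolynomial (Fin 2) R) : sh P (sh Q F) = sh (P + Q) F := by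
  have : (sh P).comp (sh Q) = sh (P + Q) := by
    apply MvPolynomial.algHom_ext
    intro i
    rw [AlgHom.comp_apply, sh_X, map_add, sh_X, sh_X, sh_C, Pi.add_apply, map_add, add_assoc]
  exact congrArg (fun f => f F) this

/-- the homothety of ratio `t` -/
noncomputable def sc (t : R) : MvPolynomial (Fin 2) R →ₐ[R] MvPolynomial (Fin 2) R :=
  MvPolynomial.aeval (fun i => C t * X i)

theorem sc_X (t : R) (i : Fin 2) : sc t (X i) = C t * X i := by
  unfold sc; exact aeval_X _ _

theorem sc_C (t : R) (c : R) : sc t (C c) = C c := (sc t).commutes c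

theorem coeff_sc (t : R) (F : MvPolynomial (Fin 2) R) (s : Fin 2 →₀ ℕ) :
    coeff s (sc t F) = t ^ s.degree * coeff s F := by
  induction F using MvPolynomial.induction_on' with
  | monomial u a =>
    have h1 : sc t (monomial u a) = monomial u (t ^ u.degree * a) := by
      unfold sc
      rw [aeval_monomial, MvPolynomial.algebraMap_eq]
      simp_rw [mul_pow]
      rw [Finsupp.prod_mul, MvPolynomial.monomial_eq (s := u) (a := t ^ u.degree * a), map_mul,
        map_pow]
      have : (u.prod fun _ k => (C t : MvPolynomial (Fin 2) R) ^ k) = C t ^ u.degree := by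
        rw [Finsupp.prod, Finset.prod_pow_eq_pow_sum]
        rfl
      rw [this]
      ring
    rw [h1, coeff_monomial, coeff_monomial]
    split_ifs with h
    · subst h; rfl
    · rw [mul_zero]
  | add p q hp hq => rw [map_add, coeff_add, coeff_add, hp, hq, mul_add]

theorem sh_sc (t : R) (a : Fin 2 → R) (F : MvPolynomial (Fin 2) R) :
    sh a (sc t F) = sc t (sh (fun i => t * a i) F) := by
  have : (sh a).comp (sc t) = (sc t).comp (sh (fun i => t * a i)) := by
    apply MvPolynomial.algHom_ext
    intro i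
    rw [AlgHom.comp_apply, AlgHom.comp_apply, sc_X, sh_X, map_mul, sh_C, sh_X, map_add, sc_X, sc_C,
      mul_add, map_mul]
  exact congrArg (fun f => f F) this

/-- the linear substitution with matrix `g` -/
noncomputable def li (g : Matrix (Fin 2) (Fin 2) R) :
    MvPolynomial (Fin 2) R →ₐ[R] MvPolynomial (Fin 2) R :=
  MvPolynomial.aeval (fun i => ∑ j, C (g i j) * X j)

theorem li_X (g : Matrix (Fin 2) (Fin 2) R) (i : Fin 2) : li g (X i) = ∑ j, C (g i j) * X j := by
  unfold li; exact aeval_X _ _

theorem li_C (g : Matrix (Fin 2) (Fin 2) R) (c : R) : li g (C c) = C c := (li g).commutes c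

theorem sh_li (g : Matrix (Fin 2) (Fin 2) R) (a : Fin 2 → R) (F : MvPolynomial (Fin 2) R) :
    sh a (li g F) = li g (sh (g.mulVec a) F) := by
  have : (sh a).comp (li g) = (li g).comp (sh (g.mulVec a)) := by
    apply MvPolynomial.algHom_ext
    intro i
    rw [AlgHom.comp_apply, AlgHom.comp_apply, li_X, sh_X, map_add, li_X, li_C]
    simp only [Fin.sum_univ_two, map_add, map_mul, sh_X, sh_C, Matrix.mulVec, dotProduct]
    ring
  exact congrArg (fun f => f F) this

theorem li_li (g g' : Matrix (Fin 2) (Fin 2) R) (F : MvPolynomial (Fin 2) R) :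
    li g (li g' F) = li (g' * g) F := by
  have : (li g).comp (li g') = li (g' * g) := by
    apply MvPolynomial.algHom_ext
    intro i
    rw [AlgHom.comp_apply, li_X, li_X]
    simp only [Fin.sum_univ_two, map_add, map_mul, li_X, li_C, Matrix.mul_apply]
    ring
  exact congrArg (fun f => f F) this

theorem li_one (F : MvPolynomial (Fin 2) R) : li (1 : Matrix (Fin 2) (Fin 2) R) F = F := by
  have : li (1 : Matrix (Fin 2) (Fin 2) R) = AlgHom.id R _ := by
    apply MvPolynomial.algHom_ext
    intro i
    rw [li_X]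
    fin_cases i <;> simp [Matrix.one_apply]
  rw [this]; rfl

theorem hc_eq_zero_iff {k : ℕ} {G : MvPolynomial (Fin 2) R} :
    homogeneousComponent k G = 0 ↔ ∀ s : Fin 2 →₀ ℕ, s.degree = k → coeff s G = 0 := by
  constructor
  · intro h s hs
    have := congrArg (coeff s) h
    rwa [coeff_homogeneousComponent, if_pos hs, coeff_zero] at this
  · intro h
    ext s
    rw [coeff_homogeneousComponent, coeff_zero]
    split_ifs with hs
    · exact h s hs
    · rfl

theorem hc_li (g : Matrix (Fin 2) (Fin 2) R) (k : ℕ) (G : MvPolynomial (Fin 2) R) :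
    homogeneousComponent k (li g G) = li g (homogeneousComponent k G) := by
  have hh : ∀ i, (li g (homogeneousComponent i G)).IsHomogeneous i := by
    intro i
    have h1 := (homogeneousComponent_isHomogeneous i G).aeval (fun i => ∑ j, C (g i j) * X j)
      (n := 1) (fun i => by
        apply MvPolynomial.IsHomogeneous.sum
        intro j _
        simpa using (isHomogeneous_C (Fin 2) (g i j)).mul (isHomogeneous_X R j))
    rw [one_mul] at h1
    exact h1
  conv_lhs => rw [← sum_homogeneousComponent G, map_sum, map_sum]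
  rw [Finset.sum_congr rfl (g := fun i => if k = i then li g (homogeneousComponent i G) else 0)
    (fun i _ => homogeneousComponent_of_mem (hh i))]
  rw [Finset.sum_ite_eq]
  split_ifs with h
  · rfl
  · rw [Finset.mem_range, not_lt] at h
    rw [homogeneousComponent_eq_zero k G (by omega), map_zero]

theorem dg_iff {F : MvPolynomial (Fin 2) R} {D : ℕ} :
    F.totalDegree ≤ D ↔ ∀ s : Fin 2 →₀ ℕ, D < s.degree → coeff s F = 0 := by
  constructor
  · intro h s hs
    by_contra hne
    have h1 := le_totalDegree (mem_support_iff.2 hne)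
    have h2 : s.degree = s.sum fun _ e => e := rfl
    omega
  · intro h
    unfold totalDegree
    apply Finset.sup_le
    intro s hs
    by_contra hlt
    exact (mem_support_iff.1 hs) (h s (by
      have h2 : s.degree = s.sum fun _ e => e := rfl
      omega))

theorem Mul_li {g : Matrix (Fin 2) (Fin 2) R} {a : Fin 2 → R} {m : ℕ} {F : MvPolynomial (Fin 2) R}
    (h : Mul F (g.mulVec a) m) : Mul (li g F) a m := by
  intro s hs
  rw [sh_li]
  have h1 : homogeneousComponent s.degree (li g (sh (g.mulVec a) F)) = 0 := by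
    rw [hc_li, hc_eq_zero_iff.2 (fun s' hs' => h s' (by omega)), map_zero]
  exact hc_eq_zero_iff.1 h1 s rfl

theorem dg_li {g : Matrix (Fin 2) (Fin 2) R} {D : ℕ} {F : MvPolynomial (Fin 2) R}
    (h : F.totalDegree ≤ D) : (li g F).totalDegree ≤ D := by
  rw [dg_iff] at h ⊢
  intro s hs
  have h1 : homogeneousComponent s.degree (li g F) = 0 := by
    rw [hc_li, hc_eq_zero_iff.2 (fun s' hs' => h s' (by omega)), map_zero]
  exact hc_eq_zero_iff.1 h1 s rfl

theorem map_sh {S : Type*} [CommRing S] (φ : R →+* S) (P : Fin 2 → R) (F : MvPolynomial (Fin 2) R) :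
    map φ (sh P F) = sh (fun i => φ (P i)) (map φ F) := by
  have : (map φ).comp (sh P : MvPolynomial (Fin 2) R →+* MvPolynomial (Fin 2) R) =
      (sh (fun i => φ (P i)) : MvPolynomial (Fin 2) S →+* MvPolynomial (Fin 2) S).comp (map φ) := by
    apply MvPolynomial.ringHom_ext
    · intro r
      simp only [RingHom.comp_apply, RingHom.coe_coe, sh_C, map_C]
    · intro i
      simp only [RingHom.comp_apply, RingHom.coe_coe, sh_X, map_X, map_add, map_C]
  exact congrArg (fun f => f F) this

end ring

section coll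

variable {L : Type*} [Field L] {ι₁ ι₂ : Type*} {w₁ : ι₁ → ℕ} {w₂ : ι₂ → ℕ} {A : ι₁ → Fin 2 → L}
  {p0 : Fin 2 → L} {Q : ι₂ → Fin 2 → L} {D d : ℕ}

/-- **The limit of a system when a group of points collides**, over the polynomials in the
parameter. -/
theorem coll_R (hD : 1 ≤ D)
    (ha : ∀ F : MvPolynomial (Fin 2) L, F.totalDegree ≤ D - 1 → (∀ i, Mul F (A i) (w₁ i)) → F = 0)
    (hd : ∀ F : MvPolynomial (Fin 2) L, F.totalDegree ≤ d → Mul F p0 (D + 1) →
      (∀ j, Mul F (Q j) (w₂ j)) → F = 0)
    (hx : ∀ F H : MvPolynomial (Fin 2) L, F.totalDegree ≤ d → Mul F p0 D →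
      (∀ j, Mul F (Q j) (w₂ j)) → H.totalDegree ≤ D → (∀ i, Mul H (A i) (w₁ i)) →
      homogeneousComponent D H = homogeneousComponent D (sh p0 F) → homogeneousComponent D H = 0)
    (G : MvPolynomial (Fin 2) (Polynomial L)) (hG : G.totalDegree ≤ d)
    (h1 : ∀ i, Mul G (fun k => Polynomial.C (p0 k) + Polynomial.X * Polynomial.C (A i k)) (w₁ i))
    (h2 : ∀ j, Mul G (fun k => Polynomial.C (Q j k)) (w₂ j)) :
    map (Polynomial.evalRingHom 0) G = 0 := by
  obtain ⟨t, ht⟩ : ∃ t : Polynomial L, t = Polynomial.X := ⟨_, rfl⟩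
  obtain ⟨e0, he0⟩ : ∃ e0 : Polynomial L →+* L, e0 = Polynomial.evalRingHom 0 := ⟨_, rfl⟩
  have ht0 : t ≠ 0 := by rw [ht]; exact Polynomial.X_ne_zero
  have het : e0 t = 0 := by rw [he0, ht]; simp
  have heC : ∀ c : L, e0 (Polynomial.C c) = c := by intro c; rw [he0]; simp
  have hker : ∀ x : Polynomial L, e0 x = 0 ↔ t ∣ x := by
    intro x
    rw [he0, ht, Polynomial.X_dvd_iff, Polynomial.coe_evalRingHom, Polynomial.coeff_zero_eq_eval_zero]
  rw [← he0]
  set G' := sh (fun k => Polynomial.C (p0 k)) G with hG'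
  have hdiv : ∀ c, (∀ s : Fin 2 →₀ ℕ, t ^ c ∣ t ^ s.degree * coeff s G') →
      ∃ h : MvPolynomial (Fin 2) (Polynomial L), C (t ^ c) * h = sc t G' ∧
        (map e0 h).totalDegree ≤ c ∧ (∀ i, Mul (map e0 h) (A i) (w₁ i)) := by
    intro c hc
    have hdvd : C (t ^ c) ∣ sc t G' := by
      rw [C_dvd_iff_dvd_coeff]
      intro s
      rw [coeff_sc]
      exact hc s
    obtain ⟨h, hh⟩ := hdvd
    have hcoe : ∀ s : Fin 2 →₀ ℕ, t ^ c * coeff s h = t ^ s.degree * coeff s G' := by
      intro s
      rw [← coeff_sc, hh, coeff_C_mul]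
    refine ⟨h, hh.symm, ?_, ?_⟩
    · rw [dg_iff]
      intro s hs
      rw [coeff_map]
      obtain ⟨k, hk⟩ : ∃ k, s.degree = c + (k + 1) := ⟨s.degree - c - 1, by omega⟩
      have h3 := hcoe s
      rw [hk, pow_add, mul_assoc] at h3
      rw [mul_left_cancel₀ (pow_ne_zero _ ht0) h3, map_mul, map_pow, het, zero_pow (by omega),
        zero_mul]
    · intro i s hs
      have e1 : A i = fun k => e0 (Polynomial.C (A i k)) := by
        funext k; rw [heC]
      rw [e1, ← map_sh, coeff_map]
      have h8 : t ^ c * coeff s (sh (fun k => Polynomial.C (A i k)) h) = 0 := by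
        rw [← coeff_C_mul]
        have h9 : C (t ^ c) * sh (fun k => Polynomial.C (A i k)) h =
            sh (fun k => Polynomial.C (A i k)) (sc t G') := by
          rw [hh, map_mul, sh_C]
        rw [h9, sh_sc, coeff_sc, hG', sh_sh]
        have h10 : ((fun k => t * Polynomial.C (A i k)) + fun k => Polynomial.C (p0 k)) =
            (fun k => Polynomial.C (p0 k) + Polynomial.X * Polynomial.C (A i k)) := by
          funext k
          rw [Pi.add_apply, ht, add_comm]
        rw [h10, h1 i s hs, mul_zero]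
      rw [(mul_eq_zero.1 h8).resolve_left (pow_ne_zero _ ht0), map_zero]
  have key : ∀ c ≤ D, ∀ s : Fin 2 →₀ ℕ, t ^ c ∣ t ^ s.degree * coeff s G' := by
    intro c
    induction c with
    | zero => intro _ s; simp
    | succ c ih =>
      intro hc s
      obtain ⟨h, e1, e2, e3⟩ := hdiv c (ih (by omega))
      have h0 : map e0 h = 0 := ha _ (by omega) e3
      have h4 : t ∣ coeff s h := by
        rw [← hker, ← coeff_map, h0, coeff_zero]
      rw [← coeff_sc, ← e1, coeff_C_mul, pow_succ]
      exact mul_dvd_mul_left _ h4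
  obtain ⟨h, e1, e2, e3⟩ := hdiv D (key D le_rfl)
  have hF1 : (map e0 G).totalDegree ≤ d := by
    rw [dg_iff] at hG ⊢
    intro s hs
    rw [coeff_map, hG s hs, map_zero]
  have hcoef : ∀ s, coeff s (sh p0 (map e0 G)) = e0 (coeff s G') := by
    intro s
    rw [hG', ← coeff_map, map_sh]
    congr 3
    funext k
    rw [heC]
  have hF2 : Mul (map e0 G) p0 D := by
    intro s hs
    rw [hcoef, hker]
    obtain ⟨k, hk⟩ : ∃ k, D = s.degree + (k + 1) := ⟨D - s.degree - 1, by omega⟩
    have h4 := key D le_rfl s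
    rw [hk, pow_add] at h4
    exact (dvd_pow_self t (Nat.succ_ne_zero k)).trans
      ((mul_dvd_mul_iff_left (pow_ne_zero _ ht0)).1 h4)
  have hF3 : ∀ j, Mul (map e0 G) (Q j) (w₂ j) := by
    intro j s hs
    have e4 : Q j = fun k => e0 (Polynomial.C (Q j k)) := by
      funext k; rw [heC]
    rw [e4, ← map_sh, coeff_map, h2 j s hs, map_zero]
  have hlead : homogeneousComponent D (map e0 h) = homogeneousComponent D (sh p0 (map e0 G)) := by
    ext s
    rw [coeff_homogeneousComponent, coeff_homogeneousComponent]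
    split_ifs with hs
    · rw [hcoef, coeff_map]
      have h4 := congrArg (coeff s) e1
      rw [coeff_C_mul, coeff_sc, hs] at h4
      rw [mul_left_cancel₀ (pow_ne_zero _ ht0) h4]
    · rfl
  have h0 := hx _ _ hF1 hF2 hF3 e2 e3 hlead
  apply hd _ hF1 _ hF3
  intro s hs
  rcases Nat.lt_or_ge s.degree D with h7 | h7
  · exact hF2 s h7
  · rw [hlead] at h0
    exact hc_eq_zero_iff.1 h0 s (by omega)

/-- the same over the field of fractions -/
theorem coll_K {K : Type*} [Field K] [Algebra (Polynomial L) K] [IsFractionRing (Polynomial L) K]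
    (hD : 1 ≤ D)
    (ha : ∀ F : MvPolynomial (Fin 2) L, F.totalDegree ≤ D - 1 → (∀ i, Mul F (A i) (w₁ i)) → F = 0)
    (hd : ∀ F : MvPolynomial (Fin 2) L, F.totalDegree ≤ d → Mul F p0 (D + 1) →
      (∀ j, Mul F (Q j) (w₂ j)) → F = 0)
    (hx : ∀ F H : MvPolynomial (Fin 2) L, F.totalDegree ≤ d → Mul F p0 D →
      (∀ j, Mul F (Q j) (w₂ j)) → H.totalDegree ≤ D → (∀ i, Mul H (A i) (w₁ i)) →
      homogeneousComponent D H = homogeneousComponent D (sh p0 F) → homogeneousComponent D H = 0)
    (F : MvPolynomial (Fin 2) K) (hF : F.totalDegree ≤ d)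
    (h1 : ∀ i, Mul F (fun k => algebraMap (Polynomial L) K
      (Polynomial.C (p0 k) + Polynomial.X * Polynomial.C (A i k))) (w₁ i))
    (h2 : ∀ j, Mul F (fun k => algebraMap (Polynomial L) K (Polynomial.C (Q j k))) (w₂ j)) :
    F = 0 := by
  classical
  by_contra hne
  have hinj : Function.Injective (algebraMap (Polynomial L) K) := IsFractionRing.injective _ _
  -- clear denominators
  obtain ⟨b, hb⟩ := IsLocalization.exist_integer_multiples_of_finset (nonZeroDivisors (Polynomial L))
    (F.support.image fun s => coeff s F)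
  have hb' : ∀ s, ∃ r : Polynomial L, algebraMap (Polynomial L) K r =
      algebraMap (Polynomial L) K b * coeff s F := by
    intro s
    by_cases hs : coeff s F = 0
    · exact ⟨0, by rw [hs, map_zero, mul_zero]⟩
    · obtain ⟨r, hr⟩ := hb (coeff s F) (Finset.mem_image_of_mem _ (mem_support_iff.2 hs))
      refine ⟨r, ?_⟩
      rw [hr, Algebra.smul_def]
  choose r hr using hb'
  have hb0 : algebraMap (Polynomial L) K b ≠ 0 := by
    rw [Ne, map_eq_zero_iff _ hinj]
    exact nonZeroDivisors.coe_ne_zero b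
  set G : MvPolynomial (Fin 2) (Polynomial L) := ∑ s ∈ F.support, monomial s (r s) with hG
  have hGc : ∀ s, algebraMap (Polynomial L) K (coeff s G) =
      algebraMap (Polynomial L) K b * coeff s F := by
    intro s
    rw [hG, coeff_sum]
    simp_rw [coeff_monomial]
    rw [Finset.sum_ite_eq']
    split_ifs with hs
    · exact hr s
    · rw [notMem_support_iff.1 hs, map_zero, mul_zero]
  have hGF : map (algebraMap (Polynomial L) K) G = C (algebraMap (Polynomial L) K b) * F := by
    ext s
    rw [coeff_map, coeff_C_mul, hGc]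
  have hG0 : G ≠ 0 := by
    intro h0
    apply hne
    have h3 : C (algebraMap (Polynomial L) K b) * F = 0 := by rw [← hGF, h0, map_zero]
    exact (mul_eq_zero.1 h3).resolve_left (fun h => hb0 (C_eq_zero.1 h))
  -- divide by the parameter
  have hnu : ¬ IsUnit (C (Polynomial.X : Polynomial L) : MvPolynomial (Fin 2) (Polynomial L)) := by
    rw [MvPolynomial.isUnit_iff_eq_C_of_isReduced]
    rintro ⟨u, hu, hu'⟩
    have := C_injective (Fin 2) (Polynomial L) hu'
    rw [← this] at hu
    exact Polynomial.not_isUnit_X hu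
  obtain ⟨G0, hG0', hndvd⟩ :=
    (FiniteMultiplicity.of_not_isUnit hnu hG0).exists_eq_pow_mul_and_not_dvd
  set v := multiplicity (C (Polynomial.X : Polynomial L) : MvPolynomial (Fin 2) (Polynomial L)) G
  have hXv : (Polynomial.X : Polynomial L) ^ v ≠ 0 := pow_ne_zero _ Polynomial.X_ne_zero
  have hG1 : G = C ((Polynomial.X : Polynomial L) ^ v) * G0 := by rw [map_pow]; exact hG0'
  have hmul : ∀ (P : Fin 2 → Polynomial L) (m : ℕ),
      Mul F (fun k => algebraMap (Polynomial L) K (P k)) m → Mul G0 P m := by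
    intro P m hm s hs
    have h3 : algebraMap (Polynomial L) K (coeff s (sh P G)) = 0 := by
      rw [← coeff_map, map_sh, hGF, map_mul, sh_C, coeff_C_mul, hm s hs, mul_zero]
    rw [map_eq_zero_iff _ hinj, hG1, map_mul, sh_C, coeff_C_mul] at h3
    exact (mul_eq_zero.1 h3).resolve_left hXv
  apply hndvd
  have h4 := coll_R hD ha hd hx G0 (by
    rw [dg_iff] at hF ⊢
    intro s hs
    have h5 := hGc s
    rw [hF s hs, mul_zero, map_eq_zero_iff _ hinj, hG1, coeff_C_mul] at h5
    exact (mul_eq_zero.1 h5).resolve_left hXv) (fun i => hmul _ _ (h1 i)) (fun j => hmul _ _ (h2 j))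
  rw [C_dvd_iff_dvd_coeff]
  intro s
  have h5 := congrArg (coeff s) h4
  rw [coeff_map, coeff_zero, Polynomial.coe_evalRingHom, ← Polynomial.coeff_zero_eq_eval_zero] at h5
  exact Polynomial.X_dvd_iff.2 h5

end coll

end Pool.Agent.TH793.UM
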